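import Pool.Agent.Helper41.SQC.Goals

/-!
MP_bb32d1_al, stage C, packet TWI: the trace property modulo the ideal `I`.
-/

set_option autoImplicit false
set_option linter.unusedSectionVars false

namespace Pool.Agent.Helper31.SQC

noncomputable section

open Matrix Pool.Agent.Helper19.SQ Pool.Agent.Helper34.SQ Pool.Agent.Helper41.SQ
  Pool.Agent.Helper4.SQ Pool.Agent.Helper41.SQC

section

variable {N l : ℕ} {q : ℂ} {B : Type} [CommRing B]

theorem thE_shift (p : Pr B) (k : ℕ) (hk : k < N) (a b : EX N l)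
    (h : ∀ m, m < N → cn N b.1 m + (if m = k then 1 else 0) = cn N a.1 m) :
    thE p a = (p.si k * p.s (k + 1)) * thE p b := by
  unfold thE
  have h1 : ∏ m ∈ Finset.range N, (p.si m * p.s (m + 1)) ^ cn N a.1 m
      = (∏ m ∈ Finset.range N, (p.si m * p.s (m + 1)) ^ cn N b.1 m)
        * ∏ m ∈ Finset.range N, (p.si m * p.s (m + 1)) ^ (if m = k then 1 else 0) := by
    rw [← Finset.prod_mul_distrib]
    refine Finset.prod_congr rfl fun m hm => ?_
    rw [← pow_add, h m (Finset.mem_range.1 hm)]
  have h2 : ∏ m ∈ Finset.range N, (p.si m * p.s (m + 1)) ^ (if m = k then 1 else 0)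
      = p.si k * p.s (k + 1) := by
    rw [Finset.prod_eq_single k]
    · rw [if_pos rfl, pow_one]
    · intro m _ hm
      rw [if_neg hm, pow_zero]
    · intro hk'
      exact absurd (Finset.mem_range.2 hk) hk'
  rw [h1, h2, mul_comm]

theorem ss_mul (p : Pr B) (k : ℕ) : (p.s k * p.si (k + 1)) * (p.si k * p.s (k + 1)) = 1 := by
  have h1 := p.ss k
  have h2 := p.ss (k + 1)
  linear_combination h1 * (p.si (k + 1) * p.s (k + 1)) + h2

variable [Algebra ℂ B]

theorem Thm_zE (V : VD N l q) (p : Pr B) (t t' : ℕ → B) (lam : Fin (N + 1) → ZMod l) (k : ℕ) :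
    Thm N l p * zE V t t' lam k = (p.s k * p.si (k + 1)) • (zE V t t' lam k * Thm N l p) := by
  by_cases hk : k < N
  · ext b a
    rw [Thm, Matrix.diagonal_mul, Matrix.smul_apply, Matrix.mul_diagonal, zE, if_pos hk]
    simp only [Matrix.sub_apply, Matrix.smul_apply, Matrix.map_apply, smul_eq_mul]
    have key : (∀ m, m < N → cn N b.1 m + (if m = k then 1 else 0) = cn N a.1 m) →
        thE p b = (p.s k * p.si (k + 1)) * thE p a := fun h => by
      rw [thE_shift p k hk a b h, ← mul_assoc, ss_mul, one_mul]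
    by_cases hP : V.P k b a = 0
    · by_cases hQ : V.Q k b a = 0
      · rw [hP, hQ]; simp
      · rw [key (V.hQ k hk a b hQ)]; ring
    · rw [key (V.hP k hk a b hP)]; ring
  · rw [zE, if_neg hk, mul_zero, zero_mul, smul_zero]

theorem Thm_zF (h1 : S_FM) (p : Pr B) (k : ℕ) :
    Thm N l p * zF N l q B k = (p.si k * p.s (k + 1)) • (zF N l q B k * Thm N l p) := by
  ext b a
  rw [Thm, Matrix.diagonal_mul, Matrix.smul_apply, Matrix.mul_diagonal, zF]
  simp only [Matrix.map_apply, smul_eq_mul]
  by_cases hP : PhM N l q k b a = 0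
  · rw [hP]; simp
  · obtain ⟨hk, hc⟩ := h1.2 N l q k a b hP
    rw [thE_shift p k hk b a fun m hm => (hc m hm).symm]
    ring

theorem Thm_zK (p : Pr B) (lam : Fin (N + 1) → ZMod l) (j : ℕ) :
    Thm N l p * zK q B lam j = zK q B lam j * Thm N l p := by
  unfold zK Thm
  split_ifs
  · rw [Matrix.diagonal_mul_diagonal, Matrix.diagonal_mul_diagonal]
    congr 1
    funext a
    exact mul_comm _ _
  · rw [mul_one, one_mul]

/-- the twist on the free algebra. -/
def psi (p : Pr B) : FB B →ₐ[B] FB B :=
  FreeAlgebra.lift B (genVal (fun k => (p.s k * p.si (k + 1)) • xE B k)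
    (fun k => (p.si k * p.s (k + 1)) • xF B k) (xK B))

theorem rep_psi (h1 : S_FM) (V : VD N l q) (p : Pr B) (lam : Fin (N + 1) → ZMod l) (a : FB B) :
    Thm N l p * rep V p lam a = rep V p lam (psi p a) * Thm N l p := by
  induction a using FreeAlgebra.induction with
  | grade0 r =>
    rw [AlgHom.commutes, AlgHom.commutes, AlgHom.commutes]
    exact (Algebra.commutes r (Thm N l p)).symm
  | grade1 g =>
    cases g with
    | E k =>
      have e1 : psi p (FreeAlgebra.ι B (Gen.E k)) = (p.s k * p.si (k + 1)) • xE B k :=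
        FreeAlgebra.lift_ι_apply _ _
      have e2 : rep V p lam (xE B k) = zE V p.t p.t' lam k := FreeAlgebra.lift_ι_apply _ _
      rw [e1, map_smul, e2, Matrix.smul_mul]
      refine Eq.trans ?_ (Thm_zE V p p.t p.t' lam k)
      exact congrArg (fun z => Thm N l p * z) e2
    | F k =>
      have e1 : psi p (FreeAlgebra.ι B (Gen.F k)) = (p.si k * p.s (k + 1)) • xF B k :=
        FreeAlgebra.lift_ι_apply _ _
      have e2 : rep V p lam (xF B k) = zF N l q B k := FreeAlgebra.lift_ι_apply _ _
      rw [e1, map_smul, e2, Matrix.smul_mul]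
      refine Eq.trans ?_ (Thm_zF h1 p k)
      exact congrArg (fun z => Thm N l p * z) e2
    | K k =>
      have e1 : psi p (FreeAlgebra.ι B (Gen.K k)) = xK B k :=
        FreeAlgebra.lift_ι_apply _ _
      have e2 : rep V p lam (xK B k) = zK q B lam k := FreeAlgebra.lift_ι_apply _ _
      rw [e1, e2]
      refine Eq.trans ?_ (Thm_zK p lam k)
      exact congrArg (fun z => Thm N l p * z) e2
  | mul a b ha hb =>
    rw [map_mul, map_mul, map_mul, ← mul_assoc, ha, mul_assoc, hb, mul_assoc]
  | add a b ha hb =>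
    rw [map_add, map_add, map_add, mul_add, add_mul, ha, hb]

theorem mem_left (I : Ideal B) (a x : FB B) (hx : x ∈ I • (⊤ : Submodule B (FB B))) :
    a * x ∈ I • (⊤ : Submodule B (FB B)) := by
  refine Submodule.smul_induction_on hx (fun r hr n _ => ?_) (fun x y hx hy => ?_)
  · rw [mul_smul_comm]
    exact Submodule.smul_mem_smul hr trivial
  · rw [mul_add]
    exact add_mem hx hy

theorem mem_right (I : Ideal B) (a x : FB B) (hx : x ∈ I • (⊤ : Submodule B (FB B))) :
    x * a ∈ I • (⊤ : Submodule B (FB B)) := by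
  refine Submodule.smul_induction_on hx (fun r hr n _ => ?_) (fun x y hx hy => ?_)
  · rw [smul_mul_assoc]
    exact Submodule.smul_mem_smul hr trivial
  · rw [add_mul]
    exact add_mem hx hy

theorem sub_psi (p : Pr B) (I : Ideal B) (hI : ∀ j, p.s j - 1 ∈ I) (a : FB B) :
    a - psi p a ∈ I • (⊤ : Submodule B (FB B)) := by
  have hE : ∀ k, 1 - p.s k * p.si (k + 1) ∈ I := fun k => by
    have e : 1 - p.s k * p.si (k + 1)
        = p.si (k + 1) * ((p.s (k + 1) - 1) - (p.s k - 1)) := by
      linear_combination -(p.ss (k + 1))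
    rw [e]
    exact I.mul_mem_left _ (sub_mem (hI _) (hI _))
  have hF : ∀ k, 1 - p.si k * p.s (k + 1) ∈ I := fun k => by
    have e : 1 - p.si k * p.s (k + 1) = p.si k * ((p.s k - 1) - (p.s (k + 1) - 1)) := by
      linear_combination -(p.ss k)
    rw [e]
    exact I.mul_mem_left _ (sub_mem (hI _) (hI _))
  induction a using FreeAlgebra.induction with
  | grade0 r =>
    rw [AlgHom.commutes, sub_self]
    exact zero_mem _
  | grade1 g =>
    cases g with
    | E k =>
      have e1 : psi p (FreeAlgebra.ι B (Gen.E k)) = (p.s k * p.si (k + 1)) • xE B k :=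
        FreeAlgebra.lift_ι_apply _ _
      have e3 : FreeAlgebra.ι B (Gen.E k) - (p.s k * p.si (k + 1)) • xE B k
          = (1 - p.s k * p.si (k + 1)) • xE B k := by
        rw [sub_smul, one_smul]; rfl
      rw [e1, e3]
      exact Submodule.smul_mem_smul (hE k) trivial
    | F k =>
      have e1 : psi p (FreeAlgebra.ι B (Gen.F k)) = (p.si k * p.s (k + 1)) • xF B k :=
        FreeAlgebra.lift_ι_apply _ _
      have e3 : FreeAlgebra.ι B (Gen.F k) - (p.si k * p.s (k + 1)) • xF B k
          = (1 - p.si k * p.s (k + 1)) • xF B k := by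
        rw [sub_smul, one_smul]; rfl
      rw [e1, e3]
      exact Submodule.smul_mem_smul (hF k) trivial
    | K k =>
      have e1 : psi p (FreeAlgebra.ι B (Gen.K k)) = xK B k :=
        FreeAlgebra.lift_ι_apply _ _
      rw [e1]
      have e3 : FreeAlgebra.ι B (Gen.K k) - xK B k = 0 := sub_self _
      rw [e3]
      exact zero_mem _
  | mul a b ha hb =>
    have e : a * b - psi p (a * b) = (a - psi p a) * b + psi p a * (b - psi p b) := by
      rw [map_mul, sub_mul, mul_sub]; abel
    rw [e]
    exact add_mem (mem_right I b _ ha) (mem_left I _ _ hb)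
  | add a b ha hb =>
    have e : a + b - psi p (a + b) = (a - psi p a) + (b - psi p b) := by
      rw [map_add]; abel
    rw [e]
    exact add_mem ha hb

end

theorem c_twi (h1 : Pool.Agent.Helper41.SQC.S_FM) : Pool.Agent.Helper41.SQC.S_TWI := by
  intro N l _ q _ V B _ _ p I hI a b
  have e1 : TH V p (a * b - b * a) = TH V p (a * (b - psi p b)) := by
    funext x
    rw [map_sub, mul_sub, map_sub, Pi.sub_apply, Pi.sub_apply]
    congr 1
    rw [TH_apply, TH_apply, map_mul, map_mul, mul_assoc, Matrix.trace_mul_comm, mul_assoc,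
      rep_psi h1, mul_assoc]
  rw [e1]
  have h2 := mem_left I a _ (sub_psi p I hI b)
  refine Submodule.smul_induction_on h2 (fun r hr n _ => ?_) (fun x y hx hy => ?_)
  · rw [map_smul]
    exact Submodule.smul_mem_smul hr ⟨n, rfl⟩
  · rw [map_add]
    exact add_mem hx hy

end

end Pool.Agent.Helper31.SQC
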